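import Pool.Agent.Results.MP_57341d_ag.HypergeometricSymplectic
import Pool.Agent.V11286.NE.Vol
import Pool.Agent.V11286.NE.Tup
import Pool.Agent.V11286.NE.Box

/-!
# Periods of hypergeometric motives of Calabi–Yau type: for ALL fibres in short windows along sequences all relations of
bounded degree between the periods come from the symplectic group

Let `β_1, …, β_m` be rational numbers which are not integers, `n = 2m` and `θ = z d/dz`. The periods of the fibres of the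
family of motives with the Picard-Fuchs operator `θ^n - z ∏_j (θ - β_j) (θ + β_j)` near `z = 0` are linear combinations of the
entries of the matrix `Y(z)` below with constant coefficients (the periods of the limit motive), and `Y(z)` lies in the
symplectic group of dimension `m (2m + 1)`. The starting file `HypergeometricSymplectic` shows that all relations of bounded
degree between the periods of `k` fibres at `z = 1 / t_i` (of `k` such families) come from the symplectic groups, except for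
`C N^(k-1)` tuples in boxes of side `N`. Here there are no exceptional fibres: let `v_n ≥ 1` be a sequence with exponent of
convergence zero, for example `v_n = 2 ^ n`. For almost all `(α_1, …, α_k)` and all large `n` this holds for ALL integers
`t_1, …, t_k` with `|t_i - α_i v_n| ≤ v_n ^ θ`; almost all `(α_1, …, α_k)` work for all the families, all degrees and all
number fields `K` and spaces `K + K π + ⋯ + K π ^ e` of coefficients at the same time.
-/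

set_option autoImplicit false

open PowerSeries MeasureTheory Filter

namespace Pool.Agent.Results.MP_57341d_ag.HypergeometricSequences

/-- the power series `k + ε` in the variable `ε` -/
noncomputable def shift (k : ℕ) : PowerSeries ℚ := C (k : ℚ) + X

/-- `a_k(ε) = ∏_{l < k} ∏_j ((l + ε)^2 - β_j^2) / (l + 1 + ε)^(2m)`. The series `∑_k a_k(ε) z^(k + ε)` solves the
equation `(θ^n - z ∏_j (θ^2 - β_j^2)) f = ε^n z^ε`, hence its coefficients `f_j` at `ε^j` with `j < n = 2m` are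
solutions of the homogeneous equation. -/
noncomputable def frob {m : ℕ} (β : Fin m → ℚ) (k : ℕ) : PowerSeries ℚ :=
  ∏ l ∈ Finset.range k, ((∏ j, (shift l ^ 2 - C (β j ^ 2))) * ((shift (l + 1))⁻¹) ^ (2 * m))

/-- The matrix with the entries `(θ^i f_j)(1 / t)`, where `f_j(z)` is the coefficient of `ε^j` in the series
`∑_k a_k(ε) z^(k + ε)`, `z^ε = ∑_l (log z)^l ε^l / l!`. -/
noncomputable def Y {m : ℕ} (β : Fin m → ℚ) (t : ℕ) : Matrix (Fin (2 * m)) (Fin (2 * m)) ℂ :=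
  Matrix.of fun i j => ∑ l ∈ Finset.range ((j : ℕ) + 1), ((Real.log (1 / t) ^ l / l.factorial : ℝ) : ℂ) *
    ∑' k : ℕ, ((coeff ((j : ℕ) - l) (shift k ^ (i : ℕ) * frob β k) : ℚ) : ℂ) * (1 / (t : ℂ)) ^ k

/-- the polynomial `∏_j (x^2 - β_j^2)` -/
noncomputable def poly {m : ℕ} (β : Fin m → ℚ) : Polynomial ℚ := ∏ j, (Polynomial.X ^ 2 - Polynomial.C (β j ^ 2))

/-- The matrix of the intersection form: the entry `(i, j)` is `(-1)^i q_{i+j+1-n}` for `i + j + 1 ≥ n` and `0`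
otherwise, where `q_l` are the coefficients of `∏_j (x^2 - β_j^2)`. -/
noncomputable def J {m : ℕ} (β : Fin m → ℚ) : Matrix (Fin (2 * m)) (Fin (2 * m)) ℂ :=
  Matrix.of fun i j => if 2 * m ≤ (i : ℕ) + j + 1 then (((-1) ^ (i : ℕ) * (poly β).coeff (i + j + 1 - 2 * m) : ℚ) : ℂ) else 0

/-- the symplectic group of the form `J` -/
def Sp {m : ℕ} (β : Fin m → ℚ) : Set (Matrix (Fin (2 * m)) (Fin (2 * m)) ℂ) := {g | g.transpose * J β * g = J β}

/-- the point with the coordinates `l_i` and the entries of the matrices `X_i` -/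
def point {k : ℕ} {m : Fin k → ℕ} (l : Fin k → ℂ) (X : ∀ i, Matrix (Fin (2 * m i)) (Fin (2 * m i)) ℂ) :
    (Σ i : Fin k, Option (Fin (2 * m i) × Fin (2 * m i))) → ℂ
  | ⟨i, none⟩ => l i
  | ⟨i, some p⟩ => X i p.1 p.2

/-- There is a polynomial relation of degree `≤ δ` with coefficients in `V` between the numbers `log t_i` and the
entries of the matrices `Y_i(1 / t_i) Ω_i` which does not vanish identically on `ℂ^k × ∏_i Sp(J_i) Ω_i`. -/
def Exceptional (δ : ℕ) (V : Submodule ℚ ℂ) {k : ℕ} {m : Fin k → ℕ} (β : ∀ i, Fin (m i) → ℚ)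
    (Ω : ∀ i, Matrix (Fin (2 * m i)) (Fin (2 * m i)) ℂ) (t : Fin k → ℕ) : Prop :=
  ∃ P : MvPolynomial (Σ i : Fin k, Option (Fin (2 * m i) × Fin (2 * m i))) ℂ,
    P.totalDegree ≤ δ ∧ (∀ s, P.coeff s ∈ V) ∧
    MvPolynomial.aeval (point (fun i => ((Real.log (t i) : ℝ) : ℂ)) fun i => Y (β i) (t i) * Ω i) P = 0 ∧
    ∃ (l : Fin k → ℂ) (g : ∀ i, Matrix (Fin (2 * m i)) (Fin (2 * m i)) ℂ), (∀ i, g i ∈ Sp (β i)) ∧
      MvPolynomial.aeval (point l fun i => g i * Ω i) P ≠ 0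

/-- The exponent of convergence of the sequence `v` is zero. -/
def ConvergenceExponentZero (v : ℕ → ℝ) : Prop := ∀ s : ℝ, 0 < s → Summable (fun n : ℕ => (v n) ^ (-s))

/-- The space `K + K π + ⋯ + K π ^ e` (spanned by the products of the elements of `K` and the powers of `π`). -/
noncomputable def piSpace (K : IntermediateField ℚ ℂ) (e : ℕ) : Submodule ℚ ℂ :=
  ⨆ a : Fin (e + 1), (K.toSubalgebra.toSubmodule).map (LinearMap.mulRight ℚ ((Real.pi : ℂ) ^ (a : ℕ)))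

/-- the same point in the starting file -/
theorem point_eq {k : ℕ} {m : Fin k → ℕ} (l : Fin k → ℂ) (X : ∀ i, Matrix (Fin (2 * m i)) (Fin (2 * m i)) ℂ) :
    point l X = HypergeometricSymplectic.point l X := by
  funext v
  obtain ⟨i, _ | p⟩ := v
  · rfl
  · rfl

/-- the same relations as in the starting file -/
theorem exceptional_iff (δ : ℕ) (V : Submodule ℚ ℂ) {k : ℕ} {m : Fin k → ℕ} (β : ∀ i, Fin (m i) → ℚ)
    (Ω : ∀ i, Matrix (Fin (2 * m i)) (Fin (2 * m i)) ℂ) (t : Fin k → ℕ) :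
    Exceptional δ V β Ω t ↔ HypergeometricSymplectic.Exceptional δ V β Ω t := by
  unfold Exceptional HypergeometricSymplectic.Exceptional
  simp only [point_eq]
  rfl

/-- one tuple of families, one space of coefficients -/
theorem main (k : ℕ) (m : Fin k → ℕ) (hm : ∀ i, 1 ≤ m i) (β : ∀ i, Fin (m i) → ℚ) (hβ : ∀ i j, ∀ a : ℤ, β i j ≠ a)
    (δ D : ℕ) : ∃ θ : ℝ, 0 < θ ∧ ∀ V : Submodule ℚ ℂ, Module.Finite ℚ V → Module.finrank ℚ V ≤ D →
      ∀ (Ω : ∀ i, Matrix (Fin (2 * m i)) (Fin (2 * m i)) ℂ) (v : ℕ → ℝ), (∀ n, 1 ≤ v n) → ConvergenceExponentZero v →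
      ∀ᵐ α : Fin k → ℝ, (∀ i, 0 < α i) → ∃ n₀ : ℕ, ∀ n : ℕ, n₀ ≤ n → ∀ t : Fin k → ℕ,
        (∀ i, |(t i : ℝ) - α i * v n| ≤ (v n) ^ θ) →
          (∀ i, 2 ≤ t i ∧ Y (β i) (t i) ∈ Sp (β i)) ∧ ¬ Exceptional δ V β Ω t := by
  obtain ⟨hY, hmain⟩ := HypergeometricSymplectic.result k m hm β hβ
  obtain ⟨c, C, hc, h⟩ := hmain δ D
  set b : ℝ := min c 1 / 2 with hb
  have hb0 : 0 < b := by
    have : 0 < min c 1 := lt_min hc one_pos
    positivity
  have hb1 : b ≤ 1 / 2 := by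
    have : min c 1 ≤ 1 := min_le_right _ _
    rw [hb]
    linarith
  refine ⟨b / (2 * (k + 1)), by positivity, fun V hVf hVD Ω v hv1 hv => ?_⟩
  set θ : ℝ := b / (2 * (k + 1)) with hθ
  have hθ0 : 0 < θ := by positivity
  have hk0 : (0 : ℝ) ≤ k := Nat.cast_nonneg k
  have hθb : θ * (2 * (k + 1)) = b := by rw [hθ]; field_simp
  have hθhalf : θ ≤ 1 / 2 := by nlinarith
  have htv : Tendsto v atTop atTop :=
    Pool.Agent.Y854.GM.tendsto_of_expLe (τ := 0) (fun n => lt_of_lt_of_le one_pos (hv1 n)) le_rfl hv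
  -- the entries are at least two
  have hbig : ∀ α : Fin k → ℝ, (∀ i, 0 < α i) → ∃ n₁ : ℕ, ∀ n : ℕ, n₁ ≤ n → ∀ t : Fin k → ℕ,
      (∀ i, |(t i : ℝ) - α i * v n| ≤ (v n) ^ θ) → ∀ i, 2 ≤ t i := by
    intro α hα
    have h1 : ∀ i : Fin k, ∀ᶠ n in atTop, 2 / α i ≤ (v n) ^ (1 - θ) ∧ 4 / α i ≤ v n := by
      intro i
      have t1 : Tendsto (fun n => (v n) ^ (1 - θ)) atTop atTop := (tendsto_rpow_atTop (by linarith)).comp htv
      exact (t1.eventually_ge_atTop _).and (htv.eventually_ge_atTop _)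
    obtain ⟨n₁, hn₁⟩ := eventually_atTop.1 (eventually_all.2 h1)
    refine ⟨n₁, fun n hn t ht i => ?_⟩
    obtain ⟨a1, a2⟩ := hn₁ n hn i
    have hv0 : 0 < v n := lt_of_lt_of_le one_pos (hv1 n)
    rw [div_le_iff₀ (hα i)] at a1 a2
    have e1 : v n = (v n) ^ (1 - θ) * (v n) ^ θ := by
      rw [← Real.rpow_add hv0]
      simp
    have hvθ : 0 < (v n) ^ θ := Real.rpow_pos_of_pos hv0 _
    have h2 : 2 * (v n) ^ θ ≤ α i * v n := by
      calc 2 * (v n) ^ θ ≤ ((v n) ^ (1 - θ) * α i) * (v n) ^ θ := mul_le_mul_of_nonneg_right a1 hvθ.le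
        _ = α i * ((v n) ^ (1 - θ) * (v n) ^ θ) := by ring
        _ = α i * v n := by rw [← e1]
    have h3 := (abs_le.1 (ht i)).1
    have h4 : (2 : ℝ) ≤ t i := by nlinarith
    exact_mod_cast h4
  rcases Nat.eq_zero_or_pos k with rfl | hk
  · refine Filter.Eventually.of_forall fun α _ => ⟨0, fun n _ t _ => ⟨fun i => i.elim0, ?_⟩⟩
    rintro ⟨P, -, -, h1, l, g, -, h2⟩
    apply h2
    obtain ⟨a, rfl⟩ : ∃ a, P = MvPolynomial.C a := ⟨_, MvPolynomial.eq_C_of_isEmpty P⟩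
    rw [MvPolynomial.aeval_C] at h1 ⊢
    exact h1
  · obtain ⟨C', hC'⟩ := Pool.Agent.V11286.NE.count_of_boxes hk {t | Exceptional δ V β Ω t} hc (C := C) (by
      intro x N hx hN
      have h1 := h V hVf hVD Ω x N hx hN
      have e : {t : Fin k → ℕ | (∀ i, x i < t i ∧ t i ≤ x i + N) ∧ t ∈ {t | Exceptional δ V β Ω t}} =
          {t : Fin k → ℕ | (∀ i, x i < t i ∧ t i ≤ x i + N) ∧ HypergeometricSymplectic.Exceptional δ V β Ω t} := by
        ext t
        exact and_congr_right fun _ => exceptional_iff δ V β Ω t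
      rw [e]
      exact h1)
    have hk1 : (1 : ℝ) ≤ k := by exact_mod_cast hk
    have h2 := Pool.Agent.V11286.NE.ae_tuples _ hC' (by linarith) hv1 hv (θ := θ) (by linarith) (by nlinarith)
    filter_upwards [h2] with α hα hα0
    obtain ⟨n₀, hn₀⟩ := hα
    obtain ⟨n₁, hn₁⟩ := hbig α hα0
    refine ⟨max n₀ n₁, fun n hn t ht => ?_⟩
    have h3 := hn₁ n (le_of_max_le_right hn) t ht
    refine ⟨fun i => ⟨h3 i, (hY i).2.2 (t i) (h3 i)⟩, fun hE => ?_⟩
    exact hn₀ n (le_of_max_le_left hn) t ht ⟨hE, h3⟩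

/-- (1) Let `β_i`, `1 ≤ i ≤ k`, be finite non-empty families of rational numbers which are not integers. For all `δ` and `D`
there is `θ > 0` such that for every `ℚ`-space `V` of complex numbers of dimension `≤ D`, all complex matrices `Ω_i` and every
sequence `v_n ≥ 1` with exponent of convergence zero, the following holds for almost all `(α_1, …, α_k)` with `α_i > 0`: for
all large `n` and ALL integers `t_1, …, t_k` with `|t_i - α_i v_n| ≤ v_n ^ θ`, the matrices `Y_i(1 / t_i)` are in the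
symplectic groups `Sp(J_i)`, and every polynomial relation of degree `≤ δ` with coefficients in `V` between the numbers
`log t_i` and the entries of the matrices `Y_i(1 / t_i) Ω_i` vanishes identically on `ℂ^k × ∏_i Sp(J_i) Ω_i`.
(2) Let `v_n ≥ 1` be a sequence with exponent of convergence zero, and let a complex matrix `Ω m β` be given for every family
`β` of `m` rational numbers. For every `k`, almost all `(α_1, …, α_k)` with `α_i > 0` have this property for all `β_i` and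
`δ`, all number fields `K` and all `e`, with `V = K + K π + ⋯ + K π ^ e`, `Ω_i = Ω m_i β_i` and some `θ > 0` depending on
`β_i, δ, K, e`. (3) For instance `v_n = 2 ^ n`. -/
theorem result :
    (∀ (k : ℕ) (m : Fin k → ℕ), (∀ i, 1 ≤ m i) → ∀ β : ∀ i, Fin (m i) → ℚ, (∀ i j, ∀ a : ℤ, β i j ≠ a) →
      ∀ δ D : ℕ, ∃ θ : ℝ, 0 < θ ∧ ∀ V : Submodule ℚ ℂ, Module.Finite ℚ V → Module.finrank ℚ V ≤ D →
      ∀ (Ω : ∀ i, Matrix (Fin (2 * m i)) (Fin (2 * m i)) ℂ) (v : ℕ → ℝ), (∀ n, 1 ≤ v n) → ConvergenceExponentZero v →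
      ∀ᵐ α : Fin k → ℝ, (∀ i, 0 < α i) → ∃ n₀ : ℕ, ∀ n : ℕ, n₀ ≤ n → ∀ t : Fin k → ℕ,
        (∀ i, |(t i : ℝ) - α i * v n| ≤ (v n) ^ θ) →
          (∀ i, 2 ≤ t i ∧ Y (β i) (t i) ∈ Sp (β i)) ∧ ¬ Exceptional δ V β Ω t) ∧
    (∀ v : ℕ → ℝ, (∀ n, 1 ≤ v n) → ConvergenceExponentZero v →
      ∀ (Ω : ∀ m : ℕ, (Fin m → ℚ) → Matrix (Fin (2 * m)) (Fin (2 * m)) ℂ) (k : ℕ),
      ∀ᵐ α : Fin k → ℝ, (∀ i, 0 < α i) → ∀ (m : Fin k → ℕ) (β : ∀ i, Fin (m i) → ℚ), (∀ i, 1 ≤ m i) →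
        (∀ i j, ∀ a : ℤ, β i j ≠ a) → ∀ (δ e : ℕ) (K : IntermediateField ℚ ℂ), FiniteDimensional ℚ K →
        ∃ θ : ℝ, 0 < θ ∧ ∃ n₀ : ℕ, ∀ n : ℕ, n₀ ≤ n → ∀ t : Fin k → ℕ, (∀ i, |(t i : ℝ) - α i * v n| ≤ (v n) ^ θ) →
          (∀ i, 2 ≤ t i ∧ Y (β i) (t i) ∈ Sp (β i)) ∧
            ¬ Exceptional δ (piSpace K e) β (fun i => Ω (m i) (β i)) t) ∧
    (∀ (Ω : ∀ m : ℕ, (Fin m → ℚ) → Matrix (Fin (2 * m)) (Fin (2 * m)) ℂ) (k : ℕ),
      ∀ᵐ α : Fin k → ℝ, (∀ i, 0 < α i) → ∀ (m : Fin k → ℕ) (β : ∀ i, Fin (m i) → ℚ), (∀ i, 1 ≤ m i) →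
        (∀ i j, ∀ a : ℤ, β i j ≠ a) → ∀ (δ e : ℕ) (K : IntermediateField ℚ ℂ), FiniteDimensional ℚ K →
        ∃ θ : ℝ, 0 < θ ∧ ∃ n₀ : ℕ, ∀ n : ℕ, n₀ ≤ n → ∀ t : Fin k → ℕ,
          (∀ i, |(t i : ℝ) - α i * 2 ^ n| ≤ (2 : ℝ) ^ (θ * n)) →
          (∀ i, 2 ≤ t i ∧ Y (β i) (t i) ∈ Sp (β i)) ∧
            ¬ Exceptional δ (piSpace K e) β (fun i => Ω (m i) (β i)) t) := by
  have h2 : ∀ v : ℕ → ℝ, (∀ n, 1 ≤ v n) → ConvergenceExponentZero v →
      ∀ (Ω : ∀ m : ℕ, (Fin m → ℚ) → Matrix (Fin (2 * m)) (Fin (2 * m)) ℂ) (k : ℕ),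
      ∀ᵐ α : Fin k → ℝ, (∀ i, 0 < α i) → ∀ (m : Fin k → ℕ) (β : ∀ i, Fin (m i) → ℚ), (∀ i, 1 ≤ m i) →
        (∀ i j, ∀ a : ℤ, β i j ≠ a) → ∀ (δ e : ℕ) (K : IntermediateField ℚ ℂ), FiniteDimensional ℚ K →
        ∃ θ : ℝ, 0 < θ ∧ ∃ n₀ : ℕ, ∀ n : ℕ, n₀ ≤ n → ∀ t : Fin k → ℕ, (∀ i, |(t i : ℝ) - α i * v n| ≤ (v n) ^ θ) →
          (∀ i, 2 ≤ t i ∧ Y (β i) (t i) ∈ Sp (β i)) ∧
            ¬ Exceptional δ (piSpace K e) β (fun i => Ω (m i) (β i)) t := by
    intro v hv1 hv Ω k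
    have h5 : ∀ᵐ α : Fin k → ℝ, ∀ (m : Fin k → ℕ) (β : ∀ i, Fin (m i) → ℚ), (∀ i, 1 ≤ m i) →
        (∀ i j, ∀ a : ℤ, β i j ≠ a) → ∀ (δ e : ℕ), ∀ K ∈ {K : IntermediateField ℚ ℂ | FiniteDimensional ℚ K},
        (∀ i, 0 < α i) → ∃ θ : ℝ, 0 < θ ∧ ∃ n₀ : ℕ, ∀ n : ℕ, n₀ ≤ n → ∀ t : Fin k → ℕ,
          (∀ i, |(t i : ℝ) - α i * v n| ≤ (v n) ^ θ) → (∀ i, 2 ≤ t i ∧ Y (β i) (t i) ∈ Sp (β i)) ∧
            ¬ Exceptional δ (piSpace K e) β (fun i => Ω (m i) (β i)) t := by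
      rw [ae_all_iff]
      intro m
      rw [ae_all_iff]
      intro β
      rw [ae_all_iff]
      intro hm
      rw [ae_all_iff]
      intro hβ
      rw [ae_all_iff]
      intro δ
      rw [ae_all_iff]
      intro e
      rw [ae_ball_iff Pool.Agent.V11286.NE.countable_fields]
      intro K hK
      have hK' : FiniteDimensional ℚ K := hK
      have hfin : Module.Finite ℚ (piSpace K e) := Pool.Agent.V11286.NE.piSpace_finite K e
      obtain ⟨θ, hθ, h4⟩ := main k m hm β hβ δ (Module.finrank ℚ (piSpace K e))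
      filter_upwards [h4 (piSpace K e) hfin le_rfl (fun i => Ω (m i) (β i)) v hv1 hv] with α hα hα0
      exact ⟨θ, hθ, hα hα0⟩
    filter_upwards [h5] with α h6 hα m β hm hβ δ e K hK
    exact h6 m β hm hβ δ e K hK hα
  refine ⟨fun k m hm β hβ δ D => main k m hm β hβ δ D, h2, fun Ω k => ?_⟩
  have h3 := h2 (fun l => (2 : ℝ) ^ l) (fun l => one_le_pow₀ (by norm_num)) Pool.Agent.V11286.NE.expLe_two Ω k
  filter_upwards [h3] with α h4 hα m β hm hβ δ e K hK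
  obtain ⟨θ, hθ, l₀, h5⟩ := h4 hα m β hm hβ δ e K hK
  refine ⟨θ, hθ, l₀, fun n hn t ht => h5 n hn t fun i => ?_⟩
  refine (ht i).trans (le_of_eq ?_)
  show (2 : ℝ) ^ (θ * n) = ((2 : ℝ) ^ n) ^ θ
  rw [← Real.rpow_natCast, ← Real.rpow_mul (by norm_num), mul_comm]

end Pool.Agent.Results.MP_57341d_ag.HypergeometricSequences
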