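import Pool.Agent.V11273.PV.G10

/-!
# In bounded degree and height, almost all fibres have as many independent periods as the dimension of the Galois groups

A family (`Family X ι`) is an algebraic connection `c ∂_i Y = Y B_i` over the affine space with coordinates `x_i`, `i ∈ X`,
with an invertible matrix `Y` of analytic solutions on a nonempty connected open set `U`: for example `Y` is the period
matrix (rows: locally constant Betti basis, columns: algebraic de Rham basis) of the fibres of any family of motives over
an open part of the affine space. `galois` is the group of the constant matrices `g` such that all polynomial relations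
over `ℂ[x]` between the entries of `Y` are relations between the entries of `g Y` (the differential Galois group, which is
the Zariski closure of the monodromy group for Gauss-Manin connections). No assumption is made on this group.

For finitely many families `F_j` we show that there are sets `V_j` of entries of the period matrices, with
`|V_j| = dim galois (F_j)`, such that for all tuples of fibres at points `s_j` with coordinates in a number field, outside
of few tuples, the `∑ dim galois (F_j)` periods `Y_j(s_j)_v`, `v ∈ V_j`, satisfy no polynomial relation of bounded degree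
and height, not even with coefficients in the ring generated by arbitrary fixed numbers. With the powers of `2 π i` as
fixed numbers this says that `2 π i` and these periods, together `1 + ∑ dim galois (F_j)` numbers, satisfy no polynomial
relation over number fields of bounded degree and height. By a theorem of André the Mumford-Tate group of the product of
general fibres contains the product of the identity components of the Galois groups of the families, and for families with
big monodromy it is generated by it and a torus of dimension one: then `1 + ∑ dim galois (F_j)` is the dimension of the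
Mumford-Tate group, and the theorem is the lower bound of Grothendieck's conjecture for these fibres, in bounded degree
and height.
-/

set_option autoImplicit false

open Filter NumberField

namespace Pool.Agent.Results.MP_57341d_ag.MonodromyDimension

/-- an algebraic connection on the affine space `ℂ ^ X` with a fundamental matrix `Y` of analytic solutions on `U` -/
structure Family (X ι : Type) [Fintype X] [DecidableEq X] [Fintype ι] [DecidableEq ι] where
  /-- a nonempty connected open set -/
  U : Set (X → ℂ)
  isOpen : IsOpen U
  connected : IsPreconnected U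
  nonempty : U.Nonempty
  /-- the matrix of the solutions (periods) -/
  Y : (X → ℂ) → Matrix ι ι ℂ
  analytic : ∀ a b, AnalyticOnNhd ℂ (fun x => Y x a b) U
  det_ne : ∀ x ∈ U, (Y x).det ≠ 0
  /-- the common denominator of the connection -/
  c : MvPolynomial X ℂ
  c_ne : c ≠ 0
  /-- the numerators -/
  B : X → Matrix ι ι (MvPolynomial X ℂ)
  /-- `c ∂_i Y = Y B_i` -/
  eqn : ∀ x ∈ U, ∀ i a b, MvPolynomial.eval x c * fderiv ℂ (fun x => Y x a b) x (Pi.single i 1) =
    ∑ e, Y x a e * MvPolynomial.eval x (B i e b)

section
variable {X ι : Type} [Fintype X] [DecidableEq X] [Fintype ι] [DecidableEq ι]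

/-- all polynomial relations between the entries of `Y` over `ℂ[x]` are relations between the entries of `g Y` -/
def Preserves (F : Family X ι) (g : Matrix ι ι ℂ) : Prop :=
  ∀ p : MvPolynomial (ι × ι) (MvPolynomial X ℂ),
    (∀ x ∈ F.U, MvPolynomial.eval₂ (MvPolynomial.eval x) (fun v => F.Y x v.1 v.2) p = 0) →
    ∀ x ∈ F.U, MvPolynomial.eval₂ (MvPolynomial.eval x) (fun v => (g * F.Y x) v.1 v.2) p = 0

/-- the Galois group -/
def Family.galois (F : Family X ι) : Subgroup (GL ι ℂ) where
  carrier := {g | Preserves F (g : Matrix ι ι ℂ)}
  mul_mem' := fun ha hb => (Pool.Agent.V11273.PV.Gal F.U F.Y).mul_mem' ha hb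
  one_mem' := (Pool.Agent.V11273.PV.Gal F.U F.Y).one_mem'
  inv_mem' := fun ha => (Pool.Agent.V11273.PV.Gal F.U F.Y).inv_mem' ha

/-- the matrix entries in `V` are algebraically independent functions on `G` -/
def IndependentOn (G : Subgroup (GL ι ℂ)) (V : Finset (ι × ι)) : Prop :=
  ∀ p : MvPolynomial V ℂ, (∀ g ∈ G, MvPolynomial.eval (fun v => (g : Matrix ι ι ℂ) v.1.1 v.1.2) p = 0) → p = 0

/-- the dimension of the Zariski closure of `G`: the largest number of matrix entries which are algebraically independent
functions on `G` -/
noncomputable def dimension (G : Subgroup (GL ι ℂ)) : ℕ :=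
  sSup {n | ∃ V : Finset (ι × ι), V.card = n ∧ IndependentOn G V}

end

/-- quotients of two integers of `K`, all conjugates of which are at most `T` -/
def HeightLe (K : Type) [Field K] [NumberField K] (T : ℝ) (x : K) : Prop :=
  ∃ a b : 𝓞 K, b ≠ 0 ∧ house (a : K) ≤ T ∧ house (b : K) ≤ T ∧ x = a / b

/-- `S` is covered by at most `m` hypersurfaces of degree at most `D` -/
def CoveredBy {X : Type} (D m : ℕ) (S : Set (X → ℂ)) : Prop :=
  ∃ Φ : Finset (MvPolynomial X ℂ), Φ.card ≤ m ∧ (∀ P ∈ Φ, P ≠ 0 ∧ P.totalDegree ≤ D) ∧
    ∀ x ∈ S, ∃ P ∈ Φ, MvPolynomial.eval x P = 0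

/-- the points of norm at most `k` at distance at least `1 / k` from the complement of `U` -/
def Inner {X : Type} [Fintype X] (U : Set (X → ℂ)) (k : ℕ) : Set (X → ℂ) :=
  {z | ‖z‖ ≤ k ∧ Metric.ball z (k : ℝ)⁻¹ ⊆ U}

/-- the partial degrees of `P` are at most `k`, and its coefficients are `∑ ξ i * c i`, `i < k`, where the `c i` are
integers of `K`, all conjugates of which are at most `T ^ k` -/
def Small {σ : Type} (K : Type) [Field K] [NumberField K] (io : K →+* ℂ) (k : ℕ) (ξ : Fin k → ℂ) (T : ℝ)
    (P : MvPolynomial σ ℂ) : Prop :=
  (∀ y, P.degreeOf y ≤ k) ∧ ∀ m, ∃ c : Fin k → 𝓞 K, (∀ i (φ : K →+* ℂ), ‖φ (c i : K)‖ ≤ T ^ (k : ℝ)) ∧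
    P.coeff m = ∑ i, ξ i * io (c i : K)

section
variable {κ : Type} [Fintype κ] [DecidableEq κ] {X ι : κ → Type} [∀ j, Fintype (X j)] [∀ j, DecidableEq (X j)]
  [∀ j, Fintype (ι j)] [∀ j, DecidableEq (ι j)]

/-- the tuples of points of the domains of the families -/
def domain (F : ∀ j, Family (X j) (ι j)) : Set ((Σ j, X j) → ℂ) := {z | ∀ j, (fun i => z ⟨j, i⟩) ∈ (F j).U}

/-- The exceptional tuples `s` of points with coordinates in `K`: they are of height at most `T`, in the compact set
`Inner (domain F) k`, and some nonzero small polynomial vanishes at the periods `Y_j(s_j)_v`, `v ∈ V_j`. -/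
def Exceptional (F : ∀ j, Family (X j) (ι j)) (V : ∀ j, Finset (ι j × ι j)) (K : Type) [Field K] [NumberField K]
    (io : K →+* ℂ) (k : ℕ) (ξ : Fin k → ℂ) (T : ℝ) : Set ((Σ j, X j) → K) :=
  {s | (∀ i, HeightLe K T (s i)) ∧ (fun i => io (s i)) ∈ Inner (domain F) k ∧
    ∃ P : MvPolynomial (Σ j, V j) ℂ, Small K io k ξ T P ∧
      MvPolynomial.eval (fun v => (F v.1).Y (fun i => io (s ⟨v.1, i⟩)) v.2.1.1 v.2.1.2) P = 0 ∧ P ≠ 0}

/-- Let `F_j`, `j` in a finite set, be families. There are sets `V_j` of entries of their matrices, `|V_j|` being the
dimension of the Galois group of `F_j`, and there is `ω → ∞` such that for all large `T`, all number fields `K` of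
degree at most `ω T`, embedded in `ℂ`, and all complex numbers `ξ i`, `i < ω T` (for example the powers of `2 π i`, or
products of periods of fixed varieties), the set `Exceptional F V K io (ω T) ξ T` lies on at most `T ^ (1 / ω T)`
hypersurfaces of degree at most `T ^ (1 / ω T)`, and has at most `T ^ (1 / ω T) * N ^ (d - 1)` elements, where `d` is the
dimension of the product of the bases and `N` is the number of the elements of `K` of height at most `T`. Outside of this
set, for all points `s_j` with coordinates in `K` of height at most `T` (in `Inner (domain F) (ω T)`), the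
`∑ dim galois (F_j)` periods `Y_j(s_j)_v`, `v ∈ V_j`, of the fibres satisfy no nonzero polynomial relation of partial
degrees at most `ω T` with coefficients `∑ ξ i * c i`, `c i` integers of `K` of size at most `T ^ ω T`. -/
theorem result [Nonempty (Σ j, X j)] (F : ∀ j, Family (X j) (ι j)) :
    ∃ V : ∀ j, Finset (ι j × ι j), (∀ j, (V j).card = dimension (F j).galois) ∧
    ∃ (ω : ℝ → ℕ) (T₀ : ℝ), Tendsto ω atTop atTop ∧ Monotone ω ∧ ∀ T, T₀ ≤ T → 0 < ω T ∧
      ∀ (K : Type) [Field K] [NumberField K], Module.finrank ℚ K ≤ ω T → ∀ (io : K →+* ℂ) (ξ : Fin (ω T) → ℂ),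
        CoveredBy ⌊T ^ ((ω T : ℝ)⁻¹)⌋₊ ⌊T ^ ((ω T : ℝ)⁻¹)⌋₊
          ((fun s i => io (s i)) '' Exceptional F V K io (ω T) ξ T) ∧
        (Exceptional F V K io (ω T) ξ T).Finite ∧
        ((Exceptional F V K io (ω T) ξ T).ncard : ℝ) ≤
          T ^ ((ω T : ℝ)⁻¹) * ({x : K | HeightLe K T x}.ncard : ℝ) ^ (Fintype.card (Σ j, X j) - 1) :=
  Pool.Agent.V11273.PV.main_dim (U := fun j => (F j).U) (Y := fun j => (F j).Y) (fun j => (F j).connected)
    (fun j => (F j).isOpen) (fun j => (F j).nonempty) (fun j => (F j).analytic) (fun j => (F j).det_ne)
    (fun j => (F j).c_ne) (fun j => (F j).eqn)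

end

end Pool.Agent.Results.MP_57341d_ag.MonodromyDimension
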