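import Pool.Agent.Helper264.NT.NearPV

/-!
# As many independent periods as the dimension of the monodromy group, for all fibres close to almost every point

A family (`Family X ι`) is an algebraic connection `c ∂_i Y = Y B_i` over the affine space with coordinates `x_i`, `i ∈ X`,
with an invertible matrix `Y` of analytic solutions on a nonempty connected open set `U`, for example the period matrix of
any family of motives. `galois` is the group of the invertible constant matrices `g` such that all polynomial relations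
over `ℂ[x]` between the entries of `Y` are relations between the entries of `g Y`, and `dimension` is the dimension of (the
Zariski closure of) a group. The theorem treats products of fibres of several families `F_j`, and bases of any dimension:
there are sets `V_j` of `dimension (F_j).galois` entries of their matrices with the following property.

There is a set `E` in `ℂ ^ d` of Hausdorff dimension at most `2 d - 2` such that for all points `z` of the domain outside
of `E`, all exponents `w > 0` (arbitrarily small), all number fields `K` and all `k`, for large `T`, at ALL points `s` with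
coordinates in `K` of height at most `T` at distance at most `T ^ (-w)` from `z` the periods `Y_j(s_j)_v`, `v ∈ V_j`,
satisfy no nonzero polynomial relation of partial degrees at most `k` with coefficients `∑ ξ i * c i`, `i < k`, `c i`
integers of `K` of size at most `T ^ k`. For real points `z` the same holds outside of a set in `ℝ ^ d` of dimension at
most `d - 1`; in particular it holds near almost every point of the domain, and near almost every real point.
-/

set_option autoImplicit false

open Filter NumberField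
open scoped ENNReal

namespace Pool.Agent.Results.MP_57341d_ag.NearEveryPoint

/-- the value at `x` and at the matrix `Z` of a polynomial in the entries of a matrix, with coefficients in `ℂ[x]` -/
noncomputable def value {X ι : Type} (x : X → ℂ) (Z : Matrix ι ι ℂ) (p : MvPolynomial (ι × ι) (MvPolynomial X ℂ)) : ℂ :=
  MvPolynomial.eval₂ (MvPolynomial.eval x) (fun v => Z v.1 v.2) p

/-- an algebraic connection on the affine space `ℂ ^ X` with a fundamental matrix `Y` of analytic solutions on `U` -/
structure Family (X ι : Type) [Fintype X] [DecidableEq X] [Fintype ι] [DecidableEq ι] where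
  /-- a nonempty connected open set -/
  U : Set (X → ℂ)
  isOpen : IsOpen U
  connected : IsPreconnected U
  nonempty : U.Nonempty
  /-- the matrix of the solutions (periods) -/
  Y : (X → ℂ) → Matrix ι ι ℂ
  analytic : ∀ a b, AnalyticOnNhd ℂ (fun x => Y x a b) U
  det_ne : ∀ x ∈ U, (Y x).det ≠ 0
  /-- the common denominator of the connection -/
  c : MvPolynomial X ℂ
  c_ne : c ≠ 0
  /-- the numerators -/
  B : X → Matrix ι ι (MvPolynomial X ℂ)
  /-- `c ∂_i Y = Y B_i` -/
  eqn : ∀ x ∈ U, ∀ i a b, MvPolynomial.eval x c * fderiv ℂ (fun x => Y x a b) x (Pi.single i 1) =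
    ∑ e, Y x a e * MvPolynomial.eval x (B i e b)

section
variable {X ι : Type} [Fintype X] [DecidableEq X] [Fintype ι] [DecidableEq ι]

/-- all polynomial relations between the entries of `Y` over `ℂ[x]` are relations between the entries of `g Y` -/
def Preserves (F : Family X ι) (g : Matrix ι ι ℂ) : Prop :=
  ∀ p : MvPolynomial (ι × ι) (MvPolynomial X ℂ), (∀ x ∈ F.U, value x (F.Y x) p = 0) →
    ∀ x ∈ F.U, value x (g * F.Y x) p = 0

/-- the Galois group -/
def Family.galois (F : Family X ι) : Subgroup (GL ι ℂ) where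
  carrier := {g | Preserves F (g : Matrix ι ι ℂ)}
  mul_mem' := fun ha hb => (Pool.Agent.V11273.PV.Gal F.U F.Y).mul_mem' ha hb
  one_mem' := (Pool.Agent.V11273.PV.Gal F.U F.Y).one_mem'
  inv_mem' := fun ha => (Pool.Agent.V11273.PV.Gal F.U F.Y).inv_mem' ha

/-- the matrix entries in `V` are algebraically independent functions on `G` -/
def IndependentOn (G : Subgroup (GL ι ℂ)) (V : Finset (ι × ι)) : Prop :=
  ∀ p : MvPolynomial V ℂ, (∀ g ∈ G, MvPolynomial.eval (fun v => (g : Matrix ι ι ℂ) v.1.1 v.1.2) p = 0) → p = 0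

/-- the dimension of the Zariski closure of `G`: the largest number of matrix entries which are algebraically independent
functions on `G` -/
noncomputable def dimension (G : Subgroup (GL ι ℂ)) : ℕ :=
  sSup {n | ∃ V : Finset (ι × ι), V.card = n ∧ IndependentOn G V}

end

/-- quotients of two integers of `K`, all conjugates of which are at most `T` -/
def HeightLe (K : Type) [Field K] [NumberField K] (T : ℝ) (x : K) : Prop :=
  ∃ a b : 𝓞 K, b ≠ 0 ∧ house (a : K) ≤ T ∧ house (b : K) ≤ T ∧ x = a / b

/-- for a number field `K` embedded into `ℂ` by `io`: the partial degrees of `P` are at most `k`, and its coefficients are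
`∑ ξ i * c i`, `i < k`, where the `c i` are integers of `K`, all conjugates of which are at most `T ^ k` -/
def Small {σ : Type} (K : Type) [Field K] [NumberField K] (io : K →+* ℂ) (k : ℕ) (ξ : ℕ → ℂ) (T : ℝ)
    (P : MvPolynomial σ ℂ) : Prop :=
  (∀ y, P.degreeOf y ≤ k) ∧ ∀ m, ∃ c : Fin k → 𝓞 K, (∀ i (φ : K →+* ℂ), ‖φ (c i : K)‖ ≤ T ^ (k : ℝ)) ∧
    P.coeff m = ∑ i : Fin k, ξ i * io (c i : K)

section
variable {κ : Type} [Fintype κ] [DecidableEq κ] {X ι : κ → Type} [∀ j, Fintype (X j)] [∀ j, DecidableEq (X j)]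
  [∀ j, Fintype (ι j)] [∀ j, DecidableEq (ι j)]

/-- the tuples of points of the domains of the families -/
def domain (F : ∀ j, Family (X j) (ι j)) : Set ((Σ j, X j) → ℂ) := {z | ∀ j, (fun i => z ⟨j, i⟩) ∈ (F j).U}

/-- At all points `s` with coordinates in the number field `K` (embedded into `ℂ` by `io`) of height at most `T` and with
`|s i - z i| ≤ T ^ (-w)` for all `i` no nonzero small polynomial vanishes at the periods `Y_j(s_j)_v`, `v ∈ V_j`. -/
def GoodNear (F : ∀ j, Family (X j) (ι j)) (V : ∀ j, Finset (ι j × ι j)) (ξ : ℕ → ℂ) (z : (Σ j, X j) → ℂ) (w : ℝ)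
    (K : Type) [Field K] [NumberField K] (io : K →+* ℂ) (k : ℕ) (T : ℝ) : Prop :=
  ∀ s : (Σ j, X j) → K, (∀ i, HeightLe K T (s i)) → (∀ i, ‖io (s i) - z i‖ ≤ T ^ (-w)) →
    ∀ P : MvPolynomial (Σ j, V j) ℂ, Small K io k ξ T P →
      MvPolynomial.eval (fun v => (F v.1).Y (fun i => io (s ⟨v.1, i⟩)) v.2.1.1 v.2.1.2) P = 0 → P = 0

lemma covers [Nonempty (Σ j, X j)] (F : ∀ j, Family (X j) (ι j)) :
    ∃ V : ∀ j, Finset (ι j × ι j), (∀ j, (V j).card = dimension (F j).galois) ∧
      Pool.Agent.Helper264.NT.FixCov (Pool.Agent.V11273.PV.UU fun j => (F j).U)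
        (Pool.Agent.V11273.PV.fV (fun j => (F j).Y) (V := fun j => V j) fun _ v => v.1) (fun _ P => P ≠ 0) :=
  Pool.Agent.Helper264.NT.fix_dim (U := fun j => (F j).U) (Y := fun j => (F j).Y) (fun j => (F j).connected)
    (fun j => (F j).isOpen) (fun j => (F j).nonempty) (fun j => (F j).analytic) (fun j => (F j).det_ne)
    (fun j => (F j).c_ne) (fun j => (F j).eqn)

lemma good_of {F : ∀ j, Family (X j) (ι j)} {V : ∀ j, Finset (ι j × ι j)} {ξ : ℕ → ℂ} {z : (Σ j, X j) → ℂ} {w : ℝ}
    {K : Type} [Field K] [NumberField K] {io : K →+* ℂ} {k : ℕ} {T : ℝ}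
    (h : ∀ s : (Σ j, X j) → K, (∀ i, Y120.HtLe K T (s i)) →
      (∀ i, ‖io (s i) - z i‖ ≤ T ^ (-w)) → ∀ P : MvPolynomial (Σ j, V j) ℂ,
        Pool.Agent.V11273.PV.Small K io k (Pool.Agent.H107.Per.res ξ k) T P →
        MvPolynomial.eval (fun y => Pool.Agent.V11273.PV.fV (fun j => (F j).Y) (V := fun j => V j)
          (fun _ v => v.1) y fun j => io (s j)) P = 0 → ¬ P ≠ 0) :
    GoodNear F V ξ z w K io k T := by
  intro s hs hz P hP h0
  exact not_not.1 (h s hs hz P hP h0)

/-- **Theorem.** Let `F_j`, `j` in a finite set, be families, and `d` the dimension of the product of their bases. There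
are sets `V_j` of entries of their matrices, `|V_j|` being the dimension of the Galois group of `F_j`, such that for all
complex numbers `ξ i` (for example the powers of `2 π i`) the following holds.
(1) There is a set `E` in `ℂ ^ d` of Hausdorff dimension at most `2 (d - 1)` such that for all `z` in the domain outside
of `E`, all `w > 0`, all number fields `K ⊂ ℂ` and all `k`, the property `GoodNear F V ξ z w K k T` holds for all
large `T`.
(2) There is a set `E` in `ℝ ^ d` of Hausdorff dimension at most `d - 1` such that for all real `z` in the domain outside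
of `E`, all `w > 0`, all number fields `K ⊂ ℝ` and all `k`, the property `GoodNear F V ξ z w K k T` holds for all
large `T`. -/
theorem result [Nonempty (Σ j, X j)] (F : ∀ j, Family (X j) (ι j)) :
    ∃ V : ∀ j, Finset (ι j × ι j), (∀ j, (V j).card = dimension (F j).galois) ∧ ∀ ξ : ℕ → ℂ,
    (∃ E : Set ((Σ j, X j) → ℂ), dimH E ≤ ((2 * (Fintype.card (Σ j, X j) - 1) : ℕ) : ℝ≥0∞) ∧
      ∀ z ∈ domain F, z ∉ E → ∀ w : ℝ, 0 < w → ∀ (K : IntermediateField ℚ ℂ) [NumberField K], ∀ k : ℕ,
        ∀ᶠ T : ℝ in atTop, GoodNear F V ξ z w K (algebraMap K ℂ) k T) ∧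
    ∃ E : Set ((Σ j, X j) → ℝ), dimH E ≤ ((Fintype.card (Σ j, X j) - 1 : ℕ) : ℝ≥0∞) ∧
      ∀ z : (Σ j, X j) → ℝ, (fun i => (z i : ℂ)) ∈ domain F → z ∉ E → ∀ w : ℝ, 0 < w →
        ∀ (K : IntermediateField ℚ ℝ) [NumberField K], ∀ k : ℕ, ∀ᶠ T : ℝ in atTop,
          GoodNear F V ξ (fun i => (z i : ℂ)) w K (Complex.ofRealHom.comp (algebraMap K ℝ)) k T := by
  have hopen : IsOpen (Pool.Agent.V11273.PV.UU fun j => (F j).U) :=
    Pool.Agent.V11273.PV.UU_open fun j => (F j).isOpen
  obtain ⟨V, hV, hO⟩ := covers F
  refine ⟨V, hV, fun ξ => ⟨?_, ?_⟩⟩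
  · obtain ⟨E, hE, h⟩ := Pool.Agent.Helper264.NT.near_fix (𝕜 := ℂ) (RingHom.id ℂ) (fun _ => rfl)
      (fun P hP => ⟨P, hP, le_rfl, fun x hx => by simpa [MvPolynomial.aeval_eq_eval] using hx⟩) hopen hO ξ
    refine ⟨E, by simpa using hE, fun z hz hzE w hw K _ k => ?_⟩
    obtain ⟨T₁, hT₁⟩ := h z hzE hz K w k hw
    exact Filter.eventually_atTop.2 ⟨T₁, fun T hT => good_of fun s hs hsz P hP h0 => hT₁ T hT s hs hsz P hP h0⟩
  · obtain ⟨E, hE, h⟩ := Pool.Agent.Helper264.NT.near_fix (𝕜 := ℝ) Complex.ofRealHom
      (fun a => (Complex.norm_real a).symm) (fun P hP => Pool.Agent.Helper264.NT.real_part P hP) hopen hO ξ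
    refine ⟨E, by simpa using hE, fun z hz hzE w hw K _ k => ?_⟩
    obtain ⟨T₁, hT₁⟩ := h z hzE hz K w k hw
    refine Filter.eventually_atTop.2 ⟨T₁, fun T hT => good_of fun s hs hsz P hP h0 => ?_⟩
    refine hT₁ T hT s hs (fun i => ?_) P hP h0
    have h1 := hsz i
    change ‖((s i : ℝ) : ℂ) - (z i : ℂ)‖ ≤ _ at h1
    rwa [← Complex.ofReal_sub, Complex.norm_real] at h1

end

end Pool.Agent.Results.MP_57341d_ag.NearEveryPoint
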