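import Pool.Agent.V11273.PV.G10
import Pool.Agent.H107.Per

/-!
# As many independent periods as the dimension of the monodromy group, for all fibres close to a point

A family (`Family X ι`) is an algebraic connection `c ∂_i Y = Y B_i` over the affine space with coordinates `x_i`, `i ∈ X`,
with an invertible matrix `Y` of analytic solutions on a nonempty connected open set `U`, for example the period matrix of
any family of motives. `galois` is the group of the invertible constant matrices `g` such that all polynomial relations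
over `ℂ[x]` between the entries of `Y` are relations between the entries of `g Y`, and `dimension` is the dimension of (the
Zariski closure of) a group. The theorem treats products of fibres of several families `F_j`: there are sets `V_j` of
`dimension (F_j).galois` entries of their matrices with the following property. For one parameter: there is a set `E` of
complex numbers of Hausdorff dimension zero such that for all points `z` of the domain outside of `E`, all exponents
`w > 0` (arbitrarily small), all number fields `K` and all `k`, for large `T`, at ALL points `s` with coordinates in `K` of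
height at most `T` at distance at most `T ^ (-w)` from `z` the periods `Y_j(s_j)_v`, `v ∈ V_j`, satisfy no nonzero
polynomial relation of partial degrees at most `k` with coefficients `∑ ξ i * c i`, `i < k`, `c i` integers of `K` of size
at most `T ^ k`. For instance, for all real `z` in the domain outside of a set of dimension zero this holds for the fibres
over all but finitely many of the convergents of `z`. For bases of total dimension `d` and number fields of degree at most
`D` the exceptional set is of dimension at most `2 D (d - 1) / w`.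
-/

set_option autoImplicit false

open Filter NumberField

namespace Pool.Agent.Results.MP_57341d_ag.NearPointsIndependence

/-- the value at `x` and at the matrix `Z` of a polynomial in the entries of a matrix, with coefficients in `ℂ[x]` -/
noncomputable def value {X ι : Type} (x : X → ℂ) (Z : Matrix ι ι ℂ) (p : MvPolynomial (ι × ι) (MvPolynomial X ℂ)) : ℂ :=
  MvPolynomial.eval₂ (MvPolynomial.eval x) (fun v => Z v.1 v.2) p

/-- an algebraic connection on the affine space `ℂ ^ X` with a fundamental matrix `Y` of analytic solutions on `U` -/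
structure Family (X ι : Type) [Fintype X] [DecidableEq X] [Fintype ι] [DecidableEq ι] where
  /-- a nonempty connected open set -/
  U : Set (X → ℂ)
  isOpen : IsOpen U
  connected : IsPreconnected U
  nonempty : U.Nonempty
  /-- the matrix of the solutions (periods) -/
  Y : (X → ℂ) → Matrix ι ι ℂ
  analytic : ∀ a b, AnalyticOnNhd ℂ (fun x => Y x a b) U
  det_ne : ∀ x ∈ U, (Y x).det ≠ 0
  /-- the common denominator of the connection -/
  c : MvPolynomial X ℂ
  c_ne : c ≠ 0
  /-- the numerators -/
  B : X → Matrix ι ι (MvPolynomial X ℂ)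
  /-- `c ∂_i Y = Y B_i` -/
  eqn : ∀ x ∈ U, ∀ i a b, MvPolynomial.eval x c * fderiv ℂ (fun x => Y x a b) x (Pi.single i 1) =
    ∑ e, Y x a e * MvPolynomial.eval x (B i e b)

section
variable {X ι : Type} [Fintype X] [DecidableEq X] [Fintype ι] [DecidableEq ι]

/-- all polynomial relations between the entries of `Y` over `ℂ[x]` are relations between the entries of `g Y` -/
def Preserves (F : Family X ι) (g : Matrix ι ι ℂ) : Prop :=
  ∀ p : MvPolynomial (ι × ι) (MvPolynomial X ℂ), (∀ x ∈ F.U, value x (F.Y x) p = 0) →
    ∀ x ∈ F.U, value x (g * F.Y x) p = 0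

/-- the Galois group -/
def Family.galois (F : Family X ι) : Subgroup (GL ι ℂ) where
  carrier := {g | Preserves F (g : Matrix ι ι ℂ)}
  mul_mem' := fun ha hb => (Pool.Agent.V11273.PV.Gal F.U F.Y).mul_mem' ha hb
  one_mem' := (Pool.Agent.V11273.PV.Gal F.U F.Y).one_mem'
  inv_mem' := fun ha => (Pool.Agent.V11273.PV.Gal F.U F.Y).inv_mem' ha

/-- the matrix entries in `V` are algebraically independent functions on `G` -/
def IndependentOn (G : Subgroup (GL ι ℂ)) (V : Finset (ι × ι)) : Prop :=
  ∀ p : MvPolynomial V ℂ, (∀ g ∈ G, MvPolynomial.eval (fun v => (g : Matrix ι ι ℂ) v.1.1 v.1.2) p = 0) → p = 0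

/-- the dimension of the Zariski closure of `G`: the largest number of matrix entries which are algebraically independent
functions on `G` -/
noncomputable def dimension (G : Subgroup (GL ι ℂ)) : ℕ :=
  sSup {n | ∃ V : Finset (ι × ι), V.card = n ∧ IndependentOn G V}

end

/-- quotients of two integers of `K`, all conjugates of which are at most `T` -/
def HeightLe (K : Type) [Field K] [NumberField K] (T : ℝ) (x : K) : Prop :=
  ∃ a b : 𝓞 K, b ≠ 0 ∧ house (a : K) ≤ T ∧ house (b : K) ≤ T ∧ x = a / b

/-- the partial degrees of `P` are at most `k`, and its coefficients are `∑ ξ i * c i`, `i < k`, where the `c i` are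
integers of `K`, all conjugates of which are at most `T ^ k` -/
def Small {σ : Type} (K : IntermediateField ℚ ℂ) [NumberField K] (k : ℕ) (ξ : ℕ → ℂ) (T : ℝ)
    (P : MvPolynomial σ ℂ) : Prop :=
  (∀ y, P.degreeOf y ≤ k) ∧ ∀ m, ∃ c : Fin k → 𝓞 K, (∀ i (φ : K →+* ℂ), ‖φ (c i : K)‖ ≤ T ^ (k : ℝ)) ∧
    P.coeff m = ∑ i : Fin k, ξ i * ((c i : K) : ℂ)

section
variable {κ : Type} [Fintype κ] [DecidableEq κ] {X ι : κ → Type} [∀ j, Fintype (X j)] [∀ j, DecidableEq (X j)]
  [∀ j, Fintype (ι j)] [∀ j, DecidableEq (ι j)]

/-- the tuples of points of the domains of the families -/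
def domain (F : ∀ j, Family (X j) (ι j)) : Set ((Σ j, X j) → ℂ) := {z | ∀ j, (fun i => z ⟨j, i⟩) ∈ (F j).U}

/-- At all points `s` with coordinates in `K` of height at most `T` and with `‖s - z‖ ≤ T ^ (-w)` (maximum norm) no nonzero
small polynomial vanishes at the periods `Y_j(s_j)_v`, `v ∈ V_j`. -/
def GoodNear (F : ∀ j, Family (X j) (ι j)) (V : ∀ j, Finset (ι j × ι j)) (ξ : ℕ → ℂ) (z : (Σ j, X j) → ℂ) (w : ℝ)
    (K : IntermediateField ℚ ℂ) [NumberField K] (k : ℕ) (T : ℝ) : Prop :=
  ∀ s : (Σ j, X j) → K, (∀ i, HeightLe K T (s i)) → ‖(fun i => (s i : ℂ)) - z‖ ≤ T ^ (-w) →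
    ∀ P : MvPolynomial (Σ j, V j) ℂ, Small K k ξ T P →
      MvPolynomial.eval (fun v => (F v.1).Y (fun i => (s ⟨v.1, i⟩ : ℂ)) v.2.1.1 v.2.1.2) P = 0 → P = 0

lemma omega [Nonempty (Σ j, X j)] (F : ∀ j, Family (X j) (ι j)) :
    ∃ V : ∀ j, Finset (ι j × ι j), (∀ j, (V j).card = dimension (F j).galois) ∧
      Pool.Agent.V11273.PV.OmegaStm (fun k K [Field K] [NumberField K] io ξ T =>
        Pool.Agent.V11273.PV.ExcB (Pool.Agent.V11273.PV.UU fun j => (F j).U)
          (Pool.Agent.V11273.PV.fV (fun j => (F j).Y) (V := fun j => V j) fun _ v => v.1) (fun _ P => P ≠ 0) K io k ξ T) :=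
  Pool.Agent.V11273.PV.main_dim (U := fun j => (F j).U) (Y := fun j => (F j).Y) (fun j => (F j).connected)
    (fun j => (F j).isOpen) (fun j => (F j).nonempty) (fun j => (F j).analytic) (fun j => (F j).det_ne)
    (fun j => (F j).c_ne) (fun j => (F j).eqn)

lemma good_of {F : ∀ j, Family (X j) (ι j)} {V : ∀ j, Finset (ι j × ι j)} {ξ : ℕ → ℂ} {z : (Σ j, X j) → ℂ} {w : ℝ}
    {K : IntermediateField ℚ ℂ} [NumberField K] {k : ℕ} {T : ℝ}
    (h : ∀ s : (Σ j, X j) → K, (∀ i, Y120.HtLe K T (s i)) →
      ‖(fun i => (s i : ℂ)) - z‖ ≤ T ^ (-w) → ∀ P : MvPolynomial (Σ j, V j) ℂ,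
        Pool.Agent.V11273.PV.Small K (algebraMap K ℂ) k (Pool.Agent.H107.Per.res ξ k) T P →
        MvPolynomial.eval (fun y => Pool.Agent.V11273.PV.fV (fun j => (F j).Y) (V := fun j => V j)
          (fun _ v => v.1) y fun j => (s j : ℂ)) P = 0 → ¬ P ≠ 0) :
    GoodNear F V ξ z w K k T := by
  intro s hs hz P hP h0
  exact not_not.1 (h s hs hz P hP h0)

/-- **Theorem.** Let `F_j`, `j` in a finite set, be families, and `d` the dimension of the product of their bases. There
are sets `V_j` of entries of their matrices, `|V_j|` being the dimension of the Galois group of `F_j`, such that for all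
complex numbers `ξ i` (for example the powers of `2 π i`) the following holds.
(1) If `d = 1` there is a set `E` of Hausdorff dimension `0` such that for all `z` in the domain outside of `E`, all
`w > 0`, all number fields `K ⊂ ℂ` and all `k`, the property `GoodNear F V ξ z w K k T` holds for all large `T`.
(2) In general for all `D` and `w > 0` there is a set `E` of Hausdorff dimension at most `2 D (d - 1) / w` such that for
all `z` in the domain outside of `E`, all number fields `K ⊂ ℂ` of degree at most `D` and all `k`, the property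
`GoodNear F V ξ z w K k T` holds for all large `T`. -/
theorem result [Nonempty (Σ j, X j)] (F : ∀ j, Family (X j) (ι j)) :
    ∃ V : ∀ j, Finset (ι j × ι j), (∀ j, (V j).card = dimension (F j).galois) ∧ ∀ ξ : ℕ → ℂ,
    (Fintype.card (Σ j, X j) = 1 → ∃ E : Set ((Σ j, X j) → ℂ), dimH E = 0 ∧ ∀ z ∈ domain F, z ∉ E → ∀ w : ℝ, 0 < w →
      ∀ (K : IntermediateField ℚ ℂ) [NumberField K], ∀ k : ℕ, ∀ᶠ T : ℝ in atTop, GoodNear F V ξ z w K k T) ∧
    ∀ (D : ℕ) (w : ℝ), 0 < w → ∃ E : Set ((Σ j, X j) → ℂ),
      dimH E ≤ ENNReal.ofReal (2 * D * ((Fintype.card (Σ j, X j) : ℝ) - 1) / w) ∧ ∀ z ∈ domain F, z ∉ E →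
        ∀ (K : IntermediateField ℚ ℂ) [NumberField K], Module.finrank ℚ K ≤ D → ∀ k : ℕ,
          ∀ᶠ T : ℝ in atTop, GoodNear F V ξ z w K k T := by
  have hopen : IsOpen (Pool.Agent.V11273.PV.UU fun j => (F j).U) :=
    Pool.Agent.V11273.PV.UU_open fun j => (F j).isOpen
  have hcard : 1 ≤ Fintype.card (Σ j, X j) := Fintype.card_pos
  obtain ⟨V, hV, hO⟩ := omega F
  refine ⟨V, hV, fun ξ => ⟨fun h1 => ?_, fun D w hw => ?_⟩⟩
  · obtain ⟨E, hE, h⟩ := Pool.Agent.H107.Per.near_zero h1 hopen hO ξ
    refine ⟨E, hE, fun z hz hzE w hw K _ k => ?_⟩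
    obtain ⟨T₁, hT₁⟩ := h z hz hzE w hw K k
    exact Filter.eventually_atTop.2 ⟨T₁, fun T hT => good_of (hT₁ T hT)⟩
  · obtain ⟨E, hE, h⟩ := Pool.Agent.H107.Per.near hopen hO ξ D hw
    refine ⟨E, hE.trans (le_of_eq ?_), fun z hz hzE K _ hK k => ?_⟩
    · congr 2
      push_cast [Nat.cast_sub hcard]
      ring
    · obtain ⟨T₁, hT₁⟩ := h z hz hzE K hK k
      exact Filter.eventually_atTop.2 ⟨T₁, fun T hT => good_of (hT₁ T hT)⟩

end

end Pool.Agent.Results.MP_57341d_ag.NearPointsIndependence
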